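import Pool.Agent.U645.VS.Stm

/-!
Project VS, package P: six small pieces.
-/

set_option autoImplicit false

open Finset

namespace Pool.Agent.U396.VS

open Pool.Agent.U645.VS

/-- The multiplicity of the triple `x y z` in a list of bit masks. -/
def wt {v : ℕ} (L : List ℕ) (x y z : Fin v) : ℕ :=
  if x = y ∨ y = z ∨ x = z then 0 else L.count (2 ^ x.1 + 2 ^ y.1 + 2 ^ z.1)

theorem wt_tri {v : ℕ} (L : List ℕ) : IsTri (wt (v := v) L) := by
  refine ⟨?_, ?_, ?_⟩
  · intro x y z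
    unfold wt
    have h : (x = y ∨ y = z ∨ x = z) ↔ (y = x ∨ x = z ∨ y = z) := by
      constructor <;> (rintro (h | h | h) <;> simp [h])
    simp only [h, Nat.add_comm (2 ^ x.1) (2 ^ y.1)]
  · intro x y z
    unfold wt
    have h : (x = y ∨ y = z ∨ x = z) ↔ (x = z ∨ z = y ∨ x = y) := by
      constructor <;> (rintro (h | h | h) <;> simp [h])
    simp only [h, Nat.add_right_comm (2 ^ x.1) (2 ^ y.1) (2 ^ z.1)]
  · intro x y
    simp [wt]

theorem piece_of {v s : ℕ} (L : List ℕ)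
    (h : ∀ x y : Fin v, x ≠ y → ∑ z, wt L x y z = 0 ∨ ∑ z, wt L x y z = 2)
    (hs : ∑ x : Fin v, ∑ y : Fin v, ∑ z : Fin v, wt L x y z = 12 * s) : Piece v s :=
  ⟨wt L, wt_tri L, h, hs⟩

theorem piece_6_4 : Piece 6 4 :=
  piece_of [13, 21, 25, 22, 38, 50, 44, 56] (by decide +kernel) (by decide +kernel)

theorem piece_6_5 : Piece 6 5 :=
  piece_of [7, 11, 37, 25, 49, 22, 42, 50, 28, 44] (by decide +kernel) (by decide +kernel)

theorem piece_7_6 : Piece 7 6 :=
  piece_of [7, 19, 21, 41, 41, 14, 26, 98, 98, 76, 84, 88] (by decide +kernel) (by decide +kernel)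

theorem piece_7_7 : Piece 7 7 :=
  piece_of [11, 67, 13, 69, 49, 49, 22, 38, 42, 82, 28, 100, 88, 104] (by decide +kernel) (by decide +kernel)

theorem piece_8_8 : Piece 8 8 :=
  piece_of [7, 19, 37, 25, 41, 14, 42, 82, 98, 76, 52, 84, 152, 200, 176, 224] (by decide +kernel) (by decide +kernel)

theorem piece_8_9 : Piece 8 9 :=
  piece_of [11, 131, 13, 37, 97, 193, 22, 70, 74, 50, 162, 140, 84, 164, 56, 152, 104, 208] (by decide +kernel) (by decide +kernel)

/-- Package P. -/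
theorem t_P : S_P :=
  ⟨piece_6_4, piece_6_5, piece_7_6, piece_7_7, piece_8_8, piece_8_9⟩

end Pool.Agent.U396.VS
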